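import Pool.Agent.UL3.Stmts

/-!
# Squad UL3, row STK: stacking (helper46)
-/

set_option autoImplicit false

namespace Pool.Agent.UL3.H46

open MeasureTheory Set Pool.Agent.UL3

theorem stk (h1 : AvdStmt) (h2 : HgtStmt) (h3 : SecStmt) : StkStmt := by
  intro K hK a b t hadm hab ht hh hal
  obtain ⟨hpb, hsec, hint, -, -⟩ := h3 K hK
  obtain ⟨hpos, hle, -⟩ := h2 K hK
  have hcS : IsCompact (sec K t) := (hsec t).1
  have hvol : volume (sec K t) < ENNReal.ofReal (cr a b) := by
    have hfin : volume (sec K t) ≠ ⊤ := hcS.measure_lt_top.ne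
    have hx : al K t = (volume (sec K t)).toReal := rfl
    rw [← ENNReal.ofReal_toReal hfin, ← hx]
    exact (ENNReal.ofReal_lt_ofReal_iff hab).2 hal
  obtain ⟨z, hz⟩ := h1 a b (sec K t) hab hcS.measurableSet hvol
  refine ⟨![up a 0, up b 0, up z t], ?_, ?_⟩
  · intro n hn hmem
    have hsum : (∑ i, (n i : ℝ) • (![up a 0, up b 0, up z t] : Fin 3 → E3) i) =
        up ((n 0 : ℝ) • a + (n 1 : ℝ) • b + (n 2 : ℝ) • z) ((n 2 : ℝ) * t) := by
      rw [Fin.sum_univ_three]
      simp only [Matrix.cons_val_zero, Matrix.cons_val_one, Matrix.cons_val_two, Matrix.head_cons,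
        Matrix.tail_cons, Matrix.cons_val]
      rw [up_smul, up_smul, up_smul, up_add, up_add]
      congr 1
      ring
    rw [hsum] at hmem
    have hmK := interior_subset hmem
    by_cases c0 : n 2 = 0
    · rw [c0] at hmem
      simp only [Int.cast_zero, zero_smul, add_zero, zero_mul] at hmem
      have h01 : n 0 ≠ 0 ∨ n 1 ≠ 0 := by
        by_contra hc
        push Not at hc
        apply hn
        funext i
        fin_cases i
        · exact hc.1
        · exact hc.2
        · exact c0
      exact hadm (n 0) (n 1) h01 (hint _ hmem)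
    by_cases c1 : n 2 = 1
    · rw [c1] at hmK
      simp only [Int.cast_one, one_smul, one_mul] at hmK
      apply hz (n 0) (n 1)
      rw [mem_sec]
      have : z + (n 0 : ℝ) • a + (n 1 : ℝ) • b = (n 0 : ℝ) • a + (n 1 : ℝ) • b + z := by module
      rw [this]
      exact hmK
    by_cases c2 : n 2 = -1
    · rw [c2] at hmK
      have hneg := hK.sym _ hmK
      rw [up_neg] at hneg
      apply hz (-n 0) (-n 1)
      rw [mem_sec]
      have e1 : z + ((-n 0 : ℤ) : ℝ) • a + ((-n 1 : ℤ) : ℝ) • b =
          -((n 0 : ℝ) • a + (n 1 : ℝ) • b + ((-1 : ℤ) : ℝ) • z) := by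
        push_cast
        module
      have e2 : t = -(((-1 : ℤ) : ℝ) * t) := by
        push_cast
        ring
      rw [e1]
      rw [← e2] at hneg
      exact hneg
    · have habs : (2 : ℝ) ≤ |(n 2 : ℝ)| := by
        have : (2 : ℤ) ≤ |n 2| := by
          rcases abs_cases (n 2) with h | h <;> omega
        exact_mod_cast this
      have hx2 : hgt K ≤ |(n 2 : ℝ) * t| := by
        rw [abs_mul, abs_of_pos ht]
        nlinarith
      set x : E3 := up ((n 0 : ℝ) • a + (n 1 : ℝ) • b + (n 2 : ℝ) • z) ((n 2 : ℝ) * t) with hx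
      have hcont : Continuous fun s : ℝ => (1 + s) • x := by fun_prop
      have hopen : IsOpen ((fun s : ℝ => (1 + s) • x) ⁻¹' interior K) :=
        isOpen_interior.preimage hcont
      have h0 : (0 : ℝ) ∈ (fun s : ℝ => (1 + s) • x) ⁻¹' interior K := by
        show (1 + (0 : ℝ)) • x ∈ interior K
        rw [add_zero, one_smul]
        exact hmem
      obtain ⟨ε, hε, hball⟩ := Metric.isOpen_iff.1 hopen 0 h0
      have hs : (ε / 2) ∈ Metric.ball (0 : ℝ) ε := by
        rw [Metric.mem_ball, dist_zero_right, Real.norm_eq_abs, abs_of_pos (by positivity)]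
        linarith
      have hsK : (1 + ε / 2) • x ∈ K := interior_subset (hball hs)
      have hb := hle _ hsK
      have he : ((1 + ε / 2) • x) 2 = (1 + ε / 2) * ((n 2 : ℝ) * t) := by
        rw [hx, up_smul, up_two]
      rw [he, abs_mul, abs_of_pos (by positivity : (0 : ℝ) < 1 + ε / 2)] at hb
      nlinarith
  · unfold dt
    rw [Matrix.det_fin_three]
    simp only [Matrix.of_apply, Matrix.cons_val_zero, Matrix.cons_val_one, Matrix.cons_val_two,
      Matrix.head_cons, Matrix.tail_cons, Matrix.cons_val, up_zero, up_one, up_two]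
    have hv : a.1 * b.2 * t - a.1 * 0 * z.2 - a.2 * b.1 * t + a.2 * 0 * z.1 + 0 * b.1 * z.2 -
        0 * b.2 * z.1 = cr a b * t := by
      unfold cr
      ring
    rw [hv]
    exact abs_of_pos (mul_pos hab ht)

end Pool.Agent.UL3.H46
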